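import Mathlib
import Pool.Agent.H440R2.Final

/-!
Q2 of MP_627c93_nt for infinite sets of primes: the answer is negative.

For every finite set `F` of primes there is an infinite set `P ⊇ F` of primes such that, if
`a 0 < a 1 < a 2 < ...` is the increasing enumeration of the positive integers all of whose prime
factors lie in `P`, then only finitely many `i` have both `a i` and `a (i + 1)` prime powers.
-/

set_option autoImplicit false

namespace Pool.Agent.Results.MP_627c93_nt.InfiniteP

open Pool.Agent.H440R2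

/-- For every finite set `F` of primes there is an infinite set `P` of primes containing `F` such
that only finitely many indices `i` have `a i` and `a (i + 1)` both prime powers, where `a` is the
increasing enumeration of the positive integers all of whose prime factors lie in `P`. -/
theorem result (F : Finset ℕ) (hF : ∀ p ∈ F, p.Prime) :
    ∃ P : Set ℕ, (∀ p ∈ P, p.Prime) ∧ P.Infinite ∧ (↑F : Set ℕ) ⊆ P ∧
      ∃ a : ℕ → ℕ, StrictMono a ∧
        Set.range a = {n : ℕ | 0 < n ∧ ∀ p : ℕ, p.Prime → p ∣ n → p ∈ P} ∧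
        {i : ℕ | IsPrimePow (a i) ∧ IsPrimePow (a (i + 1))}.Finite := by
  obtain ⟨P, hP, hinf, hFP, X0, hX0⟩ := main F hF
  refine ⟨P, hP, hinf, hFP, ?_⟩
  have hset : {n : ℕ | 0 < n ∧ ∀ p : ℕ, p.Prime → p ∣ n → p ∈ P} = SU P := by
    ext n
    simp only [SU, Nat.pos_iff_ne_zero]
  have hSinf : (SU P).Infinite :=
    hinf.mono (fun p hp => SU_prime (hP p hp) hp)
  have hmono : StrictMono (Nat.nth (· ∈ SU P)) := Nat.nth_strictMono hSinf
  have hrange : Set.range (Nat.nth (· ∈ SU P)) = SU P := Nat.range_nth_of_infinite hSinf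
  refine ⟨Nat.nth (· ∈ SU P), hmono, ?_, ?_⟩
  · rw [hset, hrange]
  · apply (Set.finite_lt_nat X0).subset
    rintro i ⟨h1, h2⟩
    show i < X0
    by_contra hcon
    rw [not_lt] at hcon
    obtain ⟨z, hz, hz1, hz2⟩ := hX0 (Nat.nth (· ∈ SU P) i) (Nat.nth_mem_of_infinite hSinf i)
      (Nat.nth (· ∈ SU P) (i + 1)) (Nat.nth_mem_of_infinite hSinf (i + 1))
      (hcon.trans hmono.le_apply) (hmono (Nat.lt_succ_self i)) h1 h2
    rw [← hrange] at hz
    obtain ⟨l, rfl⟩ := hz
    have h3 := hmono.lt_iff_lt.mp hz1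
    have h4 := hmono.lt_iff_lt.mp hz2
    omega

end Pool.Agent.Results.MP_627c93_nt.InfiniteP
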